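import Pool.Agent.HUK.StmtsA
import Pool.Agent.Helper56_HUK.WIN

/-! HUK, row WIA: the exceptional set of a stably irreducible polynomial has few elements in all the
segments which start at an algebraic number. -/

set_option autoImplicit false

namespace Pool.Agent.HUK.H31

open Polynomial NumberField Pool.Agent.HIK Pool.Agent.HUK Pool.Agent.HUK.H56

/-- the bound of Cauchy for polynomials which need not be monic -/
theorem cauchy {E : Type} [Field E] (e : E →+* ℂ) {m B : ℕ} {a : E} (ha : a ∈ Ap E m B) :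
    ‖e a‖ ≤ B + 1 := by
  obtain ⟨p, hp, _, hB, hz⟩ := ha
  have h1 : aeval (e a) p = 0 := by
    have h2 := congrArg e hz
    rw [map_zero] at h2
    rw [← h2]
    rw [aeval_def, aeval_def, hom_eval₂]
    congr 1
    exact Subsingleton.elim _ _
  obtain ⟨q, hq⟩ : ∃ q : ℂ[X], q = p.map (Int.castRingHom ℂ) := ⟨_, rfl⟩
  have hinj : Function.Injective (Int.castRingHom ℂ) := RingHom.injective_int _
  have hq0 : q ≠ 0 := by
    rw [hq]
    exact (Polynomial.map_ne_zero_iff hinj).2 hp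
  have hroot : q.IsRoot (e a) := by
    rw [IsRoot.def, hq, eval_map]
    rw [aeval_def] at h1
    exact h1
  have h3 := hroot.norm_lt_cauchyBound hq0
  have hlead : 1 ≤ ‖q.leadingCoeff‖₊ := by
    have h5 : q.leadingCoeff = ((p.leadingCoeff : ℤ) : ℂ) := by
      rw [hq, leadingCoeff_map_of_injective hinj, eq_intCast]
    have h6 : (1 : ℝ) ≤ ‖q.leadingCoeff‖ := by
      rw [h5, Complex.norm_intCast]
      have h7 : (1 : ℤ) ≤ |p.leadingCoeff| := Int.one_le_abs (leadingCoeff_ne_zero.2 hp)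
      exact_mod_cast h7
    exact_mod_cast h6
  have h4 : cauchyBound q ≤ (B : NNReal) + 1 := by
    unfold cauchyBound
    apply add_le_add _ le_rfl
    refine (div_le_self (by positivity) hlead).trans ?_
    refine Finset.sup_le ?_
    intro i _
    rw [hq, coeff_map]
    have h5 := hB i
    have h6 : ‖(Int.castRingHom ℂ) (p.coeff i)‖ ≤ (B : ℝ) := by
      rw [eq_intCast, Complex.norm_intCast]
      exact_mod_cast h5
    exact_mod_cast h6
  have h7 : ‖e a‖₊ ≤ (B : NNReal) + 1 := (h3.trans_le h4).le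
  exact_mod_cast h7

section field

variable {k : Type} [Field k] [NumberField k] (ψ : k →+* QB)

theorem fin_xA {m B : ℕ} {x : QB} (hx : x ∈ Ap QB m B) :
    FiniteDimensional ℚ (IntermediateField.adjoin ℚ {x}) ∧
      Module.finrank ℚ (IntermediateField.adjoin ℚ {x}) ≤ m := by
  obtain ⟨p, hp, hd, -, h0⟩ := hx
  have h1 : aeval x (p.map (Int.castRingHom ℚ)) = 0 := by
    rw [← algebraMap_int_eq, aeval_map_algebraMap]
    exact h0
  have h2 : p.map (Int.castRingHom ℚ) ≠ 0 :=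
    (Polynomial.map_ne_zero_iff (RingHom.injective_int _)).2 hp
  have halg : IsAlgebraic ℚ x := ⟨_, h2, h1⟩
  have hint : IsIntegral ℚ x := halg.isIntegral
  refine ⟨IntermediateField.adjoin.finiteDimensional hint, ?_⟩
  rw [IntermediateField.adjoin.finrank hint]
  refine (natDegree_le_of_dvd (minpoly.dvd ℚ x h1) h2).trans ?_
  exact (natDegree_map_le).trans hd

theorem fin_LA {m B : ℕ} {x : QB} (hx : x ∈ Ap QB m B) : FiniteDimensional ℚ (Lf ψ x) ∧
    Module.finrank ℚ (Lf ψ x) ≤ m * Module.finrank ℚ k := by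
  obtain ⟨h1, h2⟩ := fin_xA hx
  obtain ⟨h3, h4⟩ := fin_psi ψ
  refine ⟨IntermediateField.finiteDimensional_sup _ _, ?_⟩
  refine (IntermediateField.finrank_sup_le _ _).trans ?_
  rw [h4]
  exact Nat.mul_le_mul_right _ h2

theorem xL_ap {m B : ℕ} {x : QB} (hx : x ∈ Ap QB m B) : xL ψ x ∈ Ap (Lf ψ x) m B := by
  obtain ⟨p, hp, hd, hc, h0⟩ := hx
  refine ⟨p, hp, hd, hc, ?_⟩
  apply (algebraMap (Lf ψ x) QB).injective
  rw [map_zero, ← aeval_algebraMap_apply]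
  exact h0

end field

/-- the denominator -/
theorem denom {L : Type} [Field L] {m B : ℕ} {x : L} (hx : x ∈ Ap L m B) :
    ∃ d : ℕ, 1 ≤ d ∧ d ≤ B ∧ IsIntegral ℤ ((d : L) * x) := by
  obtain ⟨p, hp, -, hc, h0⟩ := hx
  refine ⟨p.leadingCoeff.natAbs, ?_, ?_, ?_⟩
  · exact Int.natAbs_pos.2 (leadingCoeff_ne_zero.2 hp)
  · have h1 := hc p.natDegree
    rw [coeff_natDegree] at h1
    rw [Int.abs_eq_natAbs] at h1
    exact_mod_cast h1
  · have h1 : IsIntegral ℤ (p.leadingCoeff • x) := isIntegral_leadingCoeff_smul p x h0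
    rw [zsmul_eq_mul] at h1
    rcases Int.natAbs_eq p.leadingCoeff with h | h
    · have h2 : ((p.leadingCoeff.natAbs : ℕ) : L) = ((p.leadingCoeff : ℤ) : L) := by
        conv_rhs => rw [h]
        rw [Int.cast_natCast]
      rw [h2]
      exact h1
    · have h2 : ((p.leadingCoeff.natAbs : ℕ) : L) = -((p.leadingCoeff : ℤ) : L) := by
        conv_rhs => rw [h]
        rw [Int.cast_neg, Int.cast_natCast, neg_neg]
      rw [h2, neg_mul]
      exact h1.neg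

section main

variable {k : Type} [Field k] [NumberField k] (ψ : k →+* QB) (x : QB)

/-- bad parameters give zeros over the field -/
theorem badA (g : (𝓞 k)[X][X]) (κ : ℕ)
    (h : ∃ y ∈ IntermediateField.adjoin ℚ (insert (x + κ) (Set.range ψ)),
      evalEval (x + κ) y (g.map (mapRingHom (ψ.comp (algebraMap (𝓞 k) k)))) = 0) :
    ∃ y : Lf ψ x, evalEval (xL ψ x + κ) y
      (g.map (mapRingHom ((jL ψ x).comp (algebraMap (𝓞 k) k)))) = 0 := by
  obtain ⟨y, hy, h0⟩ := h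
  have hyL : y ∈ Lf ψ x := adjoin_le ψ x κ hy
  refine ⟨⟨y, hyL⟩, ?_⟩
  apply (algebraMap (Lf ψ x) QB).injective
  rw [map_zero, ← map_mapRingHom_evalEval]
  have e0 : (g.map (mapRingHom ((jL ψ x).comp (algebraMap (𝓞 k) k)))).map
      (mapRingHom (algebraMap (Lf ψ x) QB)) =
      g.map (mapRingHom (ψ.comp (algebraMap (𝓞 k) k))) := by
    rw [Polynomial.map_map, mapRingHom_comp]
    congr 1
  have e1 : algebraMap (Lf ψ x) QB (xL ψ x + κ) = x + κ := by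
    rw [map_add, map_natCast]
    rfl
  rw [e0, e1]
  exact h0

/-- the bound for one embedding -/
theorem oneA {g : (𝓞 k)[X][X]} {m A X R D H C' R0 : ℕ}
    (hX : 2 ≤ X) (hR : X ≤ R ^ 4) (hR0 : R0 ≤ R) (hx : x ∈ Ap QB m (X ^ A))
    (hadp : ∀ (K : Type) [Field K] [NumberField K] (j : k →+* K) (x : K) (d : ℕ) (V : ℝ), 1 ≤ d →
      IsIntegral ℤ ((d : K) * x) → (d : ℝ) ≤ V → house x ≤ V → 2 ≤ V →
      ∃ G : (𝓞 K)[X][X], AdmP K D H (V ^ H) G ∧ ∀ (n : ℕ) (y : K),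
        evalEval (x + n) y (g.map (mapRingHom (j.comp (algebraMap (𝓞 k) k)))) = 0 →
        ∃ z : 𝓞 K, evalEval (n : 𝓞 K) z G = 0)
    (hcnv : ∀ (K : Type) [Field K] [NumberField K], Module.finrank ℚ K ≤ m * Module.finrank ℚ k →
      ∀ R ≥ R0, ∀ g : (𝓞 K)[X][X], AdmP K D H ((R : ℝ) ^ (4 * ((A + 1) * H))) g →
      Nat.card {n : ℕ // n < R ^ 4 ∧ ∃ y : 𝓞 K, evalEval (n : 𝓞 K) y g = 0} ≤ C' * R ^ 3) :
    {κ : ℕ | κ < X ∧ ∃ y ∈ IntermediateField.adjoin ℚ (insert (x + κ) (Set.range ψ)),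
      evalEval (x + κ) y (g.map (mapRingHom (ψ.comp (algebraMap (𝓞 k) k)))) = 0}.ncard ≤
      C' * R ^ 3 := by
  obtain ⟨hfin, hdeg⟩ := fin_LA ψ hx
  haveI : NumberField (Lf ψ x) := ⟨⟩
  have hxL := xL_ap ψ hx
  obtain ⟨d, hd1, hd2, hdi⟩ := denom hxL
  have hXr : (2 : ℝ) ≤ X := by exact_mod_cast hX
  have hXA : (1 : ℝ) ≤ (X : ℝ) ^ A := one_le_pow₀ (by linarith)
  have hhouse : house (xL ψ x) ≤ 2 * (X : ℝ) ^ A := by
    have h3 : house (xL ψ x) ≤ (X : ℝ) ^ A + 1 := by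
      unfold house
      refine (pi_norm_le_iff_of_nonneg (by positivity)).2 fun φ => ?_
      have h4 := cauchy φ hxL
      push_cast at h4
      exact h4
    linarith
  have hdV : (d : ℝ) ≤ 2 * (X : ℝ) ^ A := by
    have h1 : (d : ℝ) ≤ ((X ^ A : ℕ) : ℝ) := by exact_mod_cast hd2
    push_cast at h1
    linarith
  obtain ⟨G, hG, hz⟩ := hadp (Lf ψ x) (jL ψ x) (xL ψ x) d (2 * (X : ℝ) ^ A) hd1 hdi hdV hhouse
    (by linarith)
  have hV : (2 * (X : ℝ) ^ A) ^ H ≤ (R : ℝ) ^ (4 * ((A + 1) * H)) := by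
    have h1 : 2 * (X : ℝ) ^ A ≤ (X : ℝ) ^ (A + 1) := by
      rw [pow_succ]
      nlinarith
    have h2 : (X : ℝ) ≤ (R : ℝ) ^ 4 := by exact_mod_cast hR
    calc (2 * (X : ℝ) ^ A) ^ H ≤ ((X : ℝ) ^ (A + 1)) ^ H :=
          pow_le_pow_left₀ (by positivity) h1 _
      _ = (X : ℝ) ^ ((A + 1) * H) := by rw [← pow_mul]
      _ ≤ ((R : ℝ) ^ 4) ^ ((A + 1) * H) := pow_le_pow_left₀ (by positivity) h2 _
      _ = (R : ℝ) ^ (4 * ((A + 1) * H)) := by rw [← pow_mul]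
  have hG' : AdmP (Lf ψ x) D H ((R : ℝ) ^ (4 * ((A + 1) * H))) G := by
    obtain ⟨P, Q, r, hr, hPQ, hrd, hrh⟩ := hG.sep
    exact ⟨hG.monic, hG.deg, hG.two, hG.irr, hG.cd, fun j i => (hG.ch j i).trans hV,
      P, Q, r, hr, hPQ, hrd, fun i => (hrh i).trans hV⟩
  refine le_trans ?_ (hcnv (Lf ψ x) hdeg R hR0 G hG')
  have e : Nat.card {n : ℕ // n < R ^ 4 ∧ ∃ y : 𝓞 (Lf ψ x),
      evalEval (n : 𝓞 (Lf ψ x)) y G = 0} =
      {n : ℕ | n < R ^ 4 ∧ ∃ y : 𝓞 (Lf ψ x), evalEval (n : 𝓞 (Lf ψ x)) y G = 0}.ncard := rfl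
  rw [e]
  refine Set.ncard_le_ncard ?_ ?_
  · rintro κ ⟨h1, h2⟩
    obtain ⟨y, hy⟩ := badA ψ x g κ h2
    exact ⟨h1.trans_le hR, hz κ y hy⟩
  · exact (Set.finite_lt_nat (R ^ 4)).subset fun n hn => hn.1

end main

theorem ncard_le_X (X : ℕ) (P : ℕ → Prop) : {κ : ℕ | κ < X ∧ P κ}.ncard ≤ X := by
  refine (Set.ncard_le_ncard (t := {κ : ℕ | κ < X}) (fun κ hκ => hκ.1)
    (Set.finite_lt_nat X)).trans ?_
  have e : {κ : ℕ | κ < X} = ((Finset.range X : Finset ℕ) : Set ℕ) := by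
    ext
    simp
  rw [e, Set.ncard_coe_finset, Finset.card_range]

/-- WIA -/
theorem wia (adp : AdpStmt) (cnv : CnvStmt) : WiaStmt := by
  classical
  intro k _ _ g hg m A
  obtain ⟨H, hadp⟩ := adp k g hg
  obtain ⟨C', R0, hcnv⟩ := cnv (m * Module.finrank ℚ k) g.natDegree H ((A + 1) * H)
  refine ⟨(Fintype.card (k →+* QB)) * (8 * C' + (R0 : ℝ) ^ 4 + 1), fun X hX x hx => ?_⟩
  have hXr : (1 : ℝ) ≤ X := by exact_mod_cast hX
  -- the fourth root
  obtain ⟨s, hs⟩ : ∃ s : ℝ, s = (X : ℝ) ^ (1 / 4 : ℝ) := ⟨_, rfl⟩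
  have hs0 : 0 ≤ s := by
    rw [hs]
    positivity
  have hs4 : s ^ 4 = X := by
    rw [hs, ← Real.rpow_natCast, ← Real.rpow_mul (by positivity)]
    norm_num
  have hs3 : s ^ 3 = (X : ℝ) ^ (1 - 1 / 4 : ℝ) := by
    rw [hs, ← Real.rpow_natCast, ← Real.rpow_mul (by positivity)]
    norm_num
  have hs1 : 1 ≤ s ^ 3 := by
    rw [hs3]
    exact Real.one_le_rpow hXr (by norm_num)
  -- the length of the segment
  have hex : ∃ R : ℕ, X ≤ R ^ 4 := ⟨X, Nat.le_self_pow (by norm_num) X⟩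
  obtain ⟨R, hR, hRmin⟩ : ∃ R : ℕ, X ≤ R ^ 4 ∧ ∀ r < R, ¬ X ≤ r ^ 4 :=
    ⟨Nat.find hex, Nat.find_spec hex, fun r hr => Nat.find_min hex hr⟩
  have hR1 : 1 ≤ R := by
    rcases Nat.eq_zero_or_pos R with h | h
    · rw [h] at hR
      omega
    · exact h
  have hRs : (R : ℝ) ≤ 2 * s := by
    have h1 := hRmin (R - 1) (by omega)
    rw [not_le] at h1
    have h2 : ((R - 1 : ℕ) : ℝ) ^ 4 ≤ s ^ 4 := by
      rw [hs4]
      exact_mod_cast h1.le
    have h3 : ((R - 1 : ℕ) : ℝ) ≤ s := (pow_le_pow_iff_left₀ (by positivity) hs0 (by norm_num)).1 h2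
    have h4 : 1 ≤ s := by
      by_contra h
      rw [not_le] at h
      have : s ^ 4 < 1 := pow_lt_one₀ hs0 h (by norm_num)
      rw [hs4] at this
      linarith
    rw [Nat.cast_sub hR1, Nat.cast_one] at h3
    by_cases h5 : R = 1
    · rw [h5, Nat.cast_one]
      linarith
    · linarith
  -- the bound for one embedding
  have key : ∀ ψ : k →+* QB,
      ({κ : ℕ | κ < X ∧ ∃ y ∈ IntermediateField.adjoin ℚ (insert (x + κ) (Set.range ψ)),
      evalEval (x + κ) y (g.map (mapRingHom (ψ.comp (algebraMap (𝓞 k) k)))) = 0}.ncard : ℝ) ≤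
      (8 * C' + (R0 : ℝ) ^ 4 + 1) * s ^ 3 := by
    intro ψ
    by_cases hX2 : 2 ≤ X
    swap
    · have h1 := ncard_le_X X (fun κ => ∃ y ∈ IntermediateField.adjoin ℚ
          (insert (x + κ) (Set.range ψ)),
          evalEval (x + κ) y (g.map (mapRingHom (ψ.comp (algebraMap (𝓞 k) k)))) = 0)
      have h2 : X ≤ 1 := by omega
      have h3 : ({κ : ℕ | κ < X ∧ ∃ y ∈ IntermediateField.adjoin ℚ
          (insert (x + κ) (Set.range ψ)),
          evalEval (x + κ) y (g.map (mapRingHom (ψ.comp (algebraMap (𝓞 k) k)))) = 0}.ncard : ℝ) ≤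
          ((1 : ℕ) : ℝ) := Nat.cast_le.2 (h1.trans h2)
      rw [Nat.cast_one] at h3
      have h4 : (0 : ℝ) ≤ (8 * C' + (R0 : ℝ) ^ 4) * s ^ 3 := by positivity
      nlinarith
    by_cases hRR : R0 ≤ R
    · have h1 := oneA ψ x hX2 hR hRR hx hadp hcnv
      have h2 : (R : ℝ) ^ 3 ≤ (2 * s) ^ 3 := pow_le_pow_left₀ (by positivity) hRs 3
      have h3 : ((C' * R ^ 3 : ℕ) : ℝ) ≤ C' * (8 * s ^ 3) := by
        push_cast
        refine mul_le_mul_of_nonneg_left ?_ (by positivity)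
        calc (R : ℝ) ^ 3 ≤ (2 * s) ^ 3 := h2
          _ = 8 * s ^ 3 := by ring
      refine (Nat.cast_le.2 h1).trans (h3.trans ?_)
      have h4 : (0 : ℝ) ≤ (R0 : ℝ) ^ 4 * s ^ 3 := by positivity
      have h5 : (0 : ℝ) ≤ s ^ 3 := by positivity
      nlinarith
    · rw [not_le] at hRR
      have h1 := ncard_le_X X (fun κ => ∃ y ∈ IntermediateField.adjoin ℚ
          (insert (x + κ) (Set.range ψ)),
          evalEval (x + κ) y (g.map (mapRingHom (ψ.comp (algebraMap (𝓞 k) k)))) = 0)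
      have h2 : X ≤ R0 ^ 4 := hR.trans (Nat.pow_le_pow_left hRR.le 4)
      have h3 : ((R0 ^ 4 : ℕ) : ℝ) ≤ (R0 : ℝ) ^ 4 * s ^ 3 := by
        push_cast
        exact le_mul_of_one_le_right (by positivity) hs1
      refine (Nat.cast_le.2 (h1.trans h2)).trans (h3.trans ?_)
      have h4 : (0 : ℝ) ≤ (C' : ℝ) * s ^ 3 := by positivity
      have h5 : (0 : ℝ) ≤ s ^ 3 := by positivity
      nlinarith
  -- all the embeddings
  have h1 : {κ : ℕ | κ < X ∧ x + κ ∈ RtSet k g} =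
      ⋃ ψ : k →+* QB, {κ : ℕ | κ < X ∧ ∃ y ∈ IntermediateField.adjoin ℚ
        (insert (x + κ) (Set.range ψ)),
        evalEval (x + κ) y (g.map (mapRingHom (ψ.comp (algebraMap (𝓞 k) k)))) = 0} := by
    ext κ
    rw [Set.mem_iUnion]
    constructor
    · rintro ⟨h1, ψ, h2⟩
      exact ⟨ψ, h1, h2⟩
    · rintro ⟨ψ, h1, h2⟩
      exact ⟨h1, ψ, h2⟩
  have h2 : {κ : ℕ | κ < X ∧ x + κ ∈ RtSet k g}.ncard ≤
      ∑ ψ : k →+* QB, {κ : ℕ | κ < X ∧ ∃ y ∈ IntermediateField.adjoin ℚ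
        (insert (x + κ) (Set.range ψ)),
        evalEval (x + κ) y (g.map (mapRingHom (ψ.comp (algebraMap (𝓞 k) k)))) = 0}.ncard := by
    rw [h1]
    exact Set.ncard_iUnion_le_of_fintype _
  have h3 : (Nat.card {κ : ℕ // κ < X ∧ x + κ ∈ RtSet k g} : ℝ) =
      ({κ : ℕ | κ < X ∧ x + κ ∈ RtSet k g}.ncard : ℝ) := rfl
  rw [h3, ← hs3]
  refine (Nat.cast_le.2 h2).trans ?_
  push_cast
  refine (Finset.sum_le_sum fun ψ _ => key ψ).trans ?_
  rw [Finset.sum_const, nsmul_eq_mul, Finset.card_univ, mul_assoc]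

end Pool.Agent.HUK.H31
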